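import Pool.Agent.VU.Defs
import Pool.Agent.V8.End.Defs
import Pool.Agent.V8.F1

/-!
# VU: the critical half from exactness on the level `0`

The point `i` sits at the position `i / t * c + i % t`; the bound is `2 M - 1 - J i` there and
`2 M - 1` elsewhere.
-/

set_option autoImplicit false
set_option linter.unusedSectionVars false

namespace Pool.Agent.VU

open Finset MvPolynomial Pool.Agent.H51.TB Pool.Agent.H54.V7 Pool.Agent.V7 Pool.Agent.V7.ST
open Pool.Agent.V8 (KillAt NJ BxJ mem_BxJ bJ_BxJ GM_consJ card_ExB ExB mem_ExB jx_apply)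
open Pool.Agent.H18.Ex (tcr Kind ell ell_mono ell_pos GM GM_iff multi_exists_fin GI InjAt Sat)
open Pool.Agent.H21.NX (Sx mem_Sx)

/-- From the system of the level `0`. -/
theorem GM_of_gMA (M n : ℕ) (β : Fin n → ℕ) (A : Finset (Fin n → ℕ)) (S : Multiset ℕ)
    (h : gM (LSA M β A) (S.map fun m => Kd.ord m ∅) = 0) : GM A (S.map Kind.free) := by
  classical
  obtain ⟨k, m, rfl⟩ := multi_exists_fin S
  rw [Multiset.map_map, GM_iff]
  rw [Multiset.map_map] at h
  have h0 : (LSA M β A).gd (fun i => Kd.ord (m i) ∅) = 0 := by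
    rw [gd_eq_gM]
    exact h
  obtain ⟨p, hp⟩ := gd_attained (LSA M β A) fun i => Kd.ord (m i) ∅
  rw [h0] at hp
  have hbot : (LSA M β A).V (fun i => Kd.ord (m i) ∅) p = ⊥ := Submodule.finrank_eq_zero.1 hp
  refine ⟨fun i s => p i (Sum.inl s), fun f hf a ha => ?_⟩
  have h1 : (fun e : {a // a ∈ A} => f e.1) ∈ (LSA M β A).V (fun i => Kd.ord (m i) ∅) p := by
    rw [mem_LSA]
    intro i b hb
    have h2 := hf i b hb
    have h3 : msk β ∅ (fun s => p i (Sum.inl s)) = fun s => p i (Sum.inl s) := by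
      funext s
      simp [msk]
    rw [h3]
    show ∑ e : {a // a ∈ A}, f e.1 * tcr (fun s => p i (Sum.inl s)) e.1 b = 0
    rw [Finset.sum_coe_sort A fun e => f e * tcr (fun s => p i (Sum.inl s)) e b]
    exact h2
  rw [hbot, Submodule.mem_bot] at h1
  exact congrFun h1 ⟨a, ha⟩

/-! ### Positions -/

/-- The position of the point `i`. -/
def pos (c t i : ℕ) : ℕ := i / t * c + i % t

theorem pos_mod {c t : ℕ} (ht1 : 1 ≤ t) (ht : t < c) (i : ℕ) : pos c t i % c = i % t := by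
  unfold pos
  have h1 : i % t < t := Nat.mod_lt _ ht1
  rw [Nat.mul_comm, Nat.mul_add_mod, Nat.mod_eq_of_lt (by omega)]

theorem pos_div {c t : ℕ} (ht1 : 1 ≤ t) (ht : t < c) (i : ℕ) : pos c t i / c = i / t := by
  unfold pos
  have h1 : i % t < t := Nat.mod_lt _ ht1
  rw [Nat.mul_comm, Nat.mul_add_div (by omega), Nat.div_eq_of_lt (show i % t < c by omega),
    Nat.add_zero]

theorem pos_inv {c t : ℕ} (ht1 : 1 ≤ t) (ht : t < c) (i : ℕ) :
    pos c t i / c * t + pos c t i % c = i := by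
  rw [pos_div ht1 ht, pos_mod ht1 ht, Nat.mul_comm]
  exact Nat.div_add_mod i t

theorem pos_lt {c t : ℕ} (ht1 : 1 ≤ t) (ht : t < c) (i : ℕ) : pos c t i < i * c + c := by
  unfold pos
  have h1 : i % t < t := Nat.mod_lt _ ht1
  have h2 : i / t * c ≤ i * c := Nat.mul_le_mul_right _ (Nat.div_le_self _ _)
  omega

theorem pos_of {c t s : ℕ} (ht : s % c < t) : pos c t (s / c * t + s % c) = s := by
  unfold pos
  have ht1 : 0 < t := by omega
  have h1 : (s / c * t + s % c) / t = s / c := by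
    rw [Nat.mul_comm, Nat.mul_add_div ht1, Nat.div_eq_of_lt ht, Nat.add_zero]
  have h2 : (s / c * t + s % c) % t = s % c := by
    rw [Nat.mul_comm, Nat.mul_add_mod, Nat.mod_eq_of_lt ht]
  rw [h1, h2, Nat.mul_comm]
  exact Nat.div_add_mod s c

/-- The bounds which belong to the multiplicities `J`. -/
def uJ (c t d : ℕ) {K : ℕ} (J : Fin K → ℕ) : ℕ → ℕ := fun s =>
  if h : s % c < t ∧ s / c * t + s % c < K then d - J ⟨s / c * t + s % c, h.2⟩ else d

theorem uJ_pos {c t d K : ℕ} {J : Fin K → ℕ} (ht1 : 1 ≤ t) (ht : t < c) (i : Fin K) :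
    uJ c t d J (pos c t i.1) = d - J i := by
  unfold uJ
  have h1 := pos_inv ht1 ht i.1
  have h2 : pos c t i.1 % c < t := by
    rw [pos_mod ht1 ht]
    exact Nat.mod_lt _ ht1
  rw [dif_pos ⟨h2, by rw [h1]; exact i.2⟩]
  congr 2
  exact Fin.ext h1

theorem one_le_uJ {c t d K : ℕ} {J : Fin K → ℕ} (hd : 1 ≤ d) (hJ : ∀ i, J i + 1 ≤ d) (s : ℕ) :
    1 ≤ uJ c t d J s := by
  unfold uJ
  split_ifs with h
  · have := hJ ⟨s / c * t + s % c, h.2⟩
    omega
  · exact hd

theorem mem_ExU_uJ {c t d k n K : ℕ} {J : Fin K → ℕ} (hJ : ∀ i, J i ≤ d) (hk : k ≤ d)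
    (ht1 : 1 ≤ t) (ht : t < c) (o : Fin K → Fin n) (ho : ∀ i, (o i).1 = pos c t i.1)
    (a : Fin n → ℕ) :
    a ∈ ExU c t (uJ c t d J) n k 0 ↔ ∑ s, a s = k ∧ ∀ i, a (o i) + J i ≤ d := by
  rw [mem_ExU, critA_mem_Ex]
  refine and_congr_right fun hs => ⟨fun h i => ?_, fun h s hst => ?_⟩
  · have h1 := h (o i) (by
      rw [ho, pos_mod ht1 ht]
      exact Nat.mod_lt _ ht1)
    rw [ho, uJ_pos ht1 ht] at h1
    have := hJ i
    omega
  · have h0 : a s ≤ d := by
      have := single_le_sum (f := a) (fun _ _ => Nat.zero_le _) (mem_univ s)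
      omega
    unfold uJ
    split_ifs with h1
    · have h2 := h ⟨s.1 / c * t + s.1 % c, h1.2⟩
      have h3 : o ⟨s.1 / c * t + s.1 % c, h1.2⟩ = s := by
        refine Fin.ext ?_
        rw [ho]
        exact pos_of hst
      rw [h3] at h2
      omega
    · exact h0

/-! ### The numbers -/

private theorem Bridge.perm {K n : ℕ} (o o' : Fin K → Fin n) (ho : Function.Injective o)
    (ho' : Function.Injective o') : ∃ σ : Fin n ≃ Fin n, ∀ i, σ (o i) = o' i := by
  obtain ⟨g, hg⟩ := Finset.exists_equiv_extend_of_card_eq (α := Fin n) (β := Fin n)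
    (t := univ) (by simp) (s := univ.image o) (f := Function.extend o o' id)
    (subset_univ _) (by
      intro x hx y hy hxy
      rw [Finset.coe_image] at hx hy
      obtain ⟨i, -, rfl⟩ := hx
      obtain ⟨i', -, rfl⟩ := hy
      rw [ho.extend_apply, ho.extend_apply] at hxy
      rw [ho' hxy])
  refine ⟨g.trans ⟨fun x => x.1, fun x => ⟨x, mem_univ x⟩, fun x => rfl, fun x => rfl⟩, fun i => ?_⟩
  have h1 := hg (o i) (mem_image_of_mem _ (mem_univ i))
  rw [ho.extend_apply] at h1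
  exact h1

/-- The number of the exponents of degree `k` with `a (o i) + J i ≤ d` does not depend on `o`. -/
theorem card_NJ {d k n K : ℕ} {J : Fin K → ℕ} (hJ : ∀ i, J i ≤ d) (o : Fin K → Fin n)
    (ho : Function.Injective o) :
    ((Sx (Fin n) k).filter fun a => ∀ i, a (o i) + J i ≤ d).card = NJ d J n k := by
  have hK : K ≤ n := by
    have := Fintype.card_le_of_injective o ho
    simpa using this
  have h1 := card_ExB (BxJ d J) (c := 1) (n := n) (d := k) (j := 0) Nat.one_pos (by omega)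
  rw [bJ_BxJ] at h1
  rw [← h1]
  obtain ⟨o', ho'⟩ : ∃ o' : Fin K → Fin n, ∀ i, (o' i).1 = n - 1 - i.1 :=
    ⟨fun i => ⟨n - 1 - i.1, by omega⟩, fun i => rfl⟩
  obtain ⟨σ, hσ⟩ := Bridge.perm o' o (fun x y hxy => by
    have h2 := congrArg Fin.val hxy
    rw [ho', ho'] at h2
    exact Fin.ext (by omega)) ho
  have hmem : ∀ a : Fin n → ℕ, a ∈ ExB (BxJ d J) 1 n k 0 ↔
      ∑ s, a s = k ∧ ∀ i, a (o' i) + J i ≤ d := by
    intro a
    rw [mem_ExB, critA_mem_Ex, mem_BxJ hJ]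
    refine and_congr_right fun _ => forall_congr' fun i => ?_
    rw [jx_apply hK]
    have h2 : (⟨n - 1 - i.1, by omega⟩ : Fin n) = o' i := Fin.ext (ho' i).symm
    rw [h2]
  refine card_nbij' (fun a => a ∘ σ) (fun a => a ∘ σ.symm) ?_ ?_ ?_ ?_
  · intro a ha
    rw [mem_coe, mem_filter, mem_Sx] at ha
    rw [mem_coe, hmem]
    refine ⟨?_, fun i => ?_⟩
    · rw [← ha.1]
      exact Equiv.sum_comp σ a
    · show a (σ (o' i)) + J i ≤ d
      rw [hσ]
      exact ha.2 i
  · intro a ha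
    rw [mem_coe, hmem] at ha
    rw [mem_coe, mem_filter, mem_Sx]
    refine ⟨?_, fun i => ?_⟩
    · rw [← ha.1]
      exact Equiv.sum_comp σ.symm a
    · show a (σ.symm (o i)) + J i ≤ d
      rw [← hσ i, Equiv.symm_apply_apply]
      exact ha.2 i
  · intro a _
    funext s
    show a (σ (σ.symm s)) = a s
    rw [Equiv.apply_symm_apply]
  · intro a _
    funext s
    show a (σ.symm (σ s)) = a s
    rw [Equiv.symm_apply_apply]

theorem wU_uJ {c t d k n K : ℕ} {J : Fin K → ℕ} (hJ : ∀ i, J i ≤ d) (hk : k ≤ d)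
    (ht1 : 1 ≤ t) (ht : t < c) (o : Fin K → Fin n) (ho : ∀ i, (o i).1 = pos c t i.1) :
    wU c t (uJ c t d J) n k ∅ = NJ d J n k := by
  have hinj : Function.Injective o := by
    intro x y hxy
    have h1 := congrArg Fin.val hxy
    rw [ho, ho] at h1
    have h2 := pos_inv ht1 ht x.1
    rw [h1, pos_inv ht1 ht] at h2
    exact Fin.ext h2.symm
  rw [← card_NJ hJ o hinj, ← range_zero, ← card_ExU]
  congr 1
  ext a
  rw [mem_ExU_uJ hJ hk ht1 ht o ho, mem_filter, mem_Sx]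

private theorem Bridge.count (S : Multiset ℕ) (μ : ℕ) :
    (S.map fun m => Kd.ord m ∅).count (Kd.ord μ ∅) = S.count μ := by
  rw [Multiset.count_map_eq_count' (fun m : ℕ => Kd.ord m ∅) S
    (fun a b h => (Kd.ord.inj h).1) μ]

private theorem Bridge.sum_count (S : Multiset ℕ) (f : ℕ → ℕ) (μ : ℕ) (P : ℕ → Prop)
    [DecidablePred P] (hμ : P μ) : S.count μ * f μ ≤ ((S.filter P).map f).sum := by
  have h1 : Multiset.replicate (S.count μ) μ ≤ S.filter P := by
    rw [Multiset.le_filter]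
    refine ⟨Multiset.le_count_iff_replicate_le.1 le_rfl, fun a ha => ?_⟩
    rw [Multiset.eq_of_mem_replicate ha]
    exact hμ
  obtain ⟨T, hT⟩ := Multiset.le_iff_exists_add.1 h1
  rw [hT, Multiset.map_add, Multiset.sum_add, Multiset.map_replicate, Multiset.sum_replicate,
    smul_eq_mul]
  exact Nat.le_add_right _ _

/-- B1: the critical half from exactness on the level `0`. -/
theorem critU_of (M c t : ℕ) (hM : 2 ≤ M) (ht1 : 1 ≤ t) (ht : t < c) (hP : PROPU M c t 0) :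
    ∃ ε : ℝ, 0 < ε ∧ ∃ δ : ℝ, 0 < δ ∧ ∃ r₀ : ℕ, ∀ r, r₀ ≤ r → ∀ K : ℕ, (K : ℝ) ≤ δ * r →
      ∀ J : Fin K → ℕ, (∀ i, J i + 1 ≤ 2 * M - 1) → ∀ S : Multiset ℕ, (∀ m ∈ S, 1 ≤ m ∧ m ≤ M) →
      |((S.count M * ell r M : ℕ) : ℝ) - ((2 * M - 1 + r).choose r : ℝ)| ≤
        ε * ((2 * M - 1 + r).choose r : ℝ) →
      ((((S.filter fun m => m < M).map (ell r)).sum : ℕ) : ℝ) ≤
        ε * ((2 * M - 1 + r).choose r : ℝ) → KillAt (2 * M - 1) J r S := by
  classical
  obtain ⟨e, he, n₀, hP⟩ := hP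
  obtain ⟨ε₁, hε₁, r₁, h₁⟩ := critB_top M (by omega) e he
  obtain ⟨ε₂, hε₂, h₂⟩ := critB_sml M (by omega) e he
  have hc0 : (0 : ℝ) < c := by
    have : 0 < c := by omega
    exact_mod_cast this
  refine ⟨min ε₁ ε₂, lt_min hε₁ hε₂, 1 / (2 * c), by positivity, r₁ + n₀ + 2 * M + 2 * c + 1,
    fun r hr K hK J hJ S hS htop hsml hkill => ?_⟩
  have hNnn : (0 : ℝ) ≤ ((2 * M - 1 + r).choose r : ℝ) := Nat.cast_nonneg _
  have hm1 : min ε₁ ε₂ ≤ ε₁ := min_le_left _ _
  have hm2 : min ε₁ ε₂ ≤ ε₂ := min_le_right _ _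
  have hJ' : ∀ i, J i ≤ 2 * M - 1 := fun i => by
    have := hJ i
    omega
  -- the positions
  have hKr : 2 * (K * c) ≤ r := by
    have h3 : (K : ℝ) * (2 * c) ≤ r := by
      have h4 := mul_le_mul_of_nonneg_right hK (show (0 : ℝ) ≤ 2 * c by positivity)
      have h5 : 1 / (2 * (c : ℝ)) * r * (2 * c) = r := by
        field_simp
      rwa [h5] at h4
    have h4 : ((2 * (K * c) : ℕ) : ℝ) ≤ (r : ℝ) := by
      push_cast
      linarith
    exact_mod_cast h4
  have hpos : ∀ i : Fin K, pos c t i.1 < r + 1 := by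
    intro i
    have h3 := pos_lt ht1 ht i.1
    have h4 : (i.1 + 1) * c ≤ K * c := Nat.mul_le_mul_right _ i.2
    rw [Nat.add_mul, Nat.one_mul] at h4
    omega
  obtain ⟨o, ho⟩ : ∃ o : Fin K → Fin (r + 1), ∀ i, (o i).1 = pos c t i.1 :=
    ⟨fun i => ⟨pos c t i.1, hpos i⟩, fun i => rfl⟩
  obtain ⟨u, hu⟩ : ∃ u : ℕ → ℕ, u = uJ c t (2 * M - 1) J := ⟨_, rfl⟩
  have hu1 : ∀ s, 1 ≤ u s := fun s => by
    rw [hu]
    exact one_le_uJ (by omega) hJ s
  obtain ⟨s, hs⟩ : ∃ s : Multiset Kd, s = S.map fun m => Kd.ord m ∅ := ⟨_, rfl⟩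
  have hcls : Cls M c 0 (r + 1) e (fun τ => s.count τ) := by
    refine ⟨⟨?_, ?_, ?_, ?_⟩, ?_⟩
    · intro τ hτ
      have h3 : τ ∈ s := by
        by_contra h3
        exact hτ (Multiset.count_eq_zero_of_notMem h3)
      rw [hs] at h3
      obtain ⟨m, hm, hi⟩ := Multiset.mem_map.1 h3
      rw [mem_kds, ← hi]
      exact ⟨(hS m hm).1, (hS m hm).2, Finset.empty_subset _⟩
    · intro I hI hI'
      rw [Finset.range_zero, Finset.subset_empty] at hI
      exact absurd (hI.trans Finset.range_zero.symm) hI'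
    · intro i hi
      exact absurd hi (Nat.not_lt_zero i)
    · intro μ hμ1 hμM I hI
      rw [Finset.range_zero, Finset.subset_empty] at hI
      subst hI
      have h3 := h₂ r (by omega) μ hμ1 hμM (S.count μ) (by
        refine le_trans ?_ (hsml.trans (mul_le_mul_of_nonneg_right hm2 hNnn))
        exact_mod_cast Bridge.sum_count S (ell r) μ (fun m => m < M) hμM)
      rw [hs, Bridge.count]
      simpa using h3
    · have h3 := h₁ r (by omega) (S.count M)
        (htop.trans (mul_le_mul_of_nonneg_right hm1 hNnn))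
      rw [Finset.range_zero, hs, Bridge.count]
      have h4 : nom M c 0 ∅ = 1 / (((2 * M - 1).choose M : ℝ) * (M.factorial : ℝ)) := by
        unfold nom
        simp
      rw [h4]
      exact h3
  have h3 := hP (r + 1) (by omega) u hu1 s hcls
  have h5 : vdI M (wU c t u (r + 1)) 0 s ≤ 0 := by
    unfold vdI
    have h7 : (s.map (wtI M (wU c t u (r + 1)))).sum =
        (S.map fun m => NJ (2 * M - 1) J (r + 1) (m - 1)).sum := by
      rw [hs, Multiset.map_map]
      refine congrArg Multiset.sum (Multiset.map_congr rfl fun m hm => ?_)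
      show wU c t u (r + 1) (m - 1) ∅ = _
      rw [hu]
      have := hS m hm
      exact wU_uJ hJ' (by omega) ht1 ht o ho
    rw [h7, range_zero, hu, wU_uJ hJ' le_rfl ht1 ht o ho]
    omega
  have h6 : max 0 (vdI M (wU c t u (r + 1)) 0 s) = 0 := max_eq_left h5
  rw [h6] at h3
  refine GM_consJ (2 * M - 1) K o J (Sx (Fin (r + 1)) (2 * M - 1)) (Finset.Subset.refl _) _ ?_
  have hA : ((Sx (Fin (r + 1)) (2 * M - 1)).filter fun α => ∀ i, α (o i) + J i ≤ 2 * M - 1) =
      ExU c t u (r + 1) (2 * M - 1) 0 := by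
    ext a
    rw [hu, mem_ExU_uJ hJ' le_rfl ht1 ht o ho, mem_filter, mem_Sx]
  have h8 : gM (LSU c t u M (r + 1) 0) s = 0 := by omega
  rw [hs] at h8
  have h7 := GM_of_gMA M (r + 1) (blk c (r + 1)) (ExU c t u (r + 1) (2 * M - 1) 0) S h8
  rw [← hA] at h7
  exact h7

end Pool.Agent.VU
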