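import Pool.Agent.VU.Defs
import Pool.Agent.V8.DHm

/-!
# VU: the differential Horace step
-/

set_option autoImplicit false
set_option linter.unusedSectionVars false

namespace Pool.Agent.VU

open Finset MvPolynomial Pool.Agent.H51.TB Pool.Agent.H54.V7 Pool.Agent.V7 Pool.Agent.V7.ST
open Pool.Agent.H18.Ex (tcr)

private theorem DHm_A1 (c t : ℕ) (u : ℕ → ℕ) (n d j : ℕ) :
    A1 (blk c n) j (ExU c t u n d j) = ExU c t u n d (j + 1) := by
  ext a
  have h := A1_Ex (blk c n) d j
  have h1 : a ∈ A1 (blk c n) j (Ex (blk c n) d j) ↔ a ∈ Ex (blk c n) d (j + 1) := by rw [h]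
  rw [V8.mem_A1] at h1
  rw [V8.mem_A1, mem_ExU, mem_ExU, ← h1]
  tauto

/-- G3 (Pool/Agent/VU/DHm.lean): differential Horace. -/
theorem gM_dhU (c t : ℕ) (u : ℕ → ℕ) (M j n : ℕ) (hM : 1 ≤ M) (hc : 1 ≤ c) (hn : (j + 1) * c ≤ n)
    (sL sO : Multiset Kd) (y a : ℕ) (hL : ∀ τ ∈ sL, τ.Ok M j)
    (h0 : gM (LSU c t (del c j u) M (n - c) j) (sL + Multiset.replicate (y + a) Kd.sm) = 0) :
    gM (LSU c t u M n j) (sL + sO + Multiset.replicate y (Kd.ord M ∅) +
      Multiset.replicate a Kd.sm) ≤
      gM (LSU c t u M n (j + 1)) (sL.map (Kd.add j) + sO + Multiset.replicate y (Kd.sw j ∅)) := by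
  classical
  have hjc : (j + 1) * c = j * c + c := by ring
  have hcn : c ≤ n := by omega
  obtain ⟨mL, hmL, -⟩ := exists_conf (LSU c t u M n j) sL
  obtain ⟨mO, hmO, -⟩ := exists_conf (LSU c t u M n j) sO
  have hval := sg_val c j n hcn
  have hinj : Function.Injective (sg c j n hcn) := by
    intro s s' h
    have h1 := congrArg Fin.val h
    rw [hval, hval] at h1
    apply Fin.ext
    split_ifs at h1 <;> omega
  have him : ∀ s : Fin n, (∃ x, sg c j n hcn x = s) ↔ blk c n s ≠ j := by
    intro s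
    have hdiv : blk c n s = j ↔ j * c ≤ s.1 ∧ s.1 < (j + 1) * c := by
      show s.1 / c = j ↔ _
      rw [Nat.div_eq_iff (by omega)]
      constructor
      · rintro ⟨h1, h2⟩
        constructor
        · exact h1
        · rw [hjc]
          omega
      · rintro ⟨h1, h2⟩
        rw [hjc] at h2
        exact ⟨h1, by omega⟩
    constructor
    · rintro ⟨x, rfl⟩ h
      have h1 := hdiv.1 h
      rw [hval] at h1
      split_ifs at h1 <;> omega
    · intro h
      rcases Nat.lt_or_ge s.1 (j * c) with h1 | h1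
      · refine ⟨⟨s.1, by omega⟩, ?_⟩
        apply Fin.ext
        rw [hval, if_pos h1]
      · have h2 : (j + 1) * c ≤ s.1 := by
          by_contra h3
          exact h (hdiv.2 ⟨h1, by omega⟩)
        have h3 := s.2
        refine ⟨⟨s.1 - c, by omega⟩, ?_⟩
        apply Fin.ext
        rw [hval, if_neg (by simp only; omega)]
        simp only
        omega
  have hβ : ∀ x, ∀ i < j, blk c n (sg c j n hcn x) = i ↔ blk c (n - c) x = i := by
    intro x i hi
    show (sg c j n hcn x).1 / c = i ↔ x.1 / c = i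
    rw [hval]
    split_ifs with h
    · exact Iff.rfl
    · have h1 : j ≤ x.1 / c := (Nat.le_div_iff_mul_le (by omega)).2 (by omega)
      have h2 : (x.1 + c) / c = x.1 / c + 1 := Nat.add_div_right _ (by omega)
      omega
  have hBd : ∀ a : Fin (n - c) → ℕ,
      Bd c t u (xt (sg c j n hcn) a) ↔ Bd c t (del c j u) a := by
    intro a
    have hmod : ∀ x : Fin (n - c), (sg c j n hcn x).1 % c = x.1 % c := by
      intro x
      rw [hval]
      split_ifs
      · rfl
      · exact Nat.add_mod_right _ _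
    have hdel : ∀ x : Fin (n - c), u (sg c j n hcn x).1 = del c j u x.1 := by
      intro x
      unfold del
      rw [hval]
      split_ifs <;> rfl
    constructor
    · intro h x hx
      have h1 := h (sg c j n hcn x) (by rw [hmod]; exact hx)
      rwa [xt_apply hinj, hdel] at h1
    · intro h s hs
      by_cases h1 : ∃ x, sg c j n hcn x = s
      · obtain ⟨x, rfl⟩ := h1
        rw [xt_apply hinj, hdel]
        exact h x (by rw [← hmod]; exact hs)
      · rw [xt_zero _ _ h1]
        exact Nat.zero_le _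
  have hmem : ∀ a : Fin (n - c) → ℕ,
      xt (sg c j n hcn) a ∈ A0 (blk c n) j (ExU c t u n (2 * M - 1) j) ↔
        a ∈ ExU c t (del c j u) (n - c) (2 * M - 1) j := by
    intro a
    have h1 := mem_xt (d := 2 * M - 1) hinj him hβ a
    rw [V8.mem_A0] at h1
    rw [V8.mem_A0, mem_ExU, mem_ExU, ← h1, hBd]
    tauto
  have hLm : ∀ i, (mL i).Ok M j := by
    intro i
    refine hL _ ?_
    rw [← hmL]
    exact Multiset.mem_map_of_mem _ (mem_univ i)
  have h1 : (LSA M (blk c n) (A0 (blk c n) j (ExU c t u n (2 * M - 1) j))).gd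
      (Sum.elim mL fun _ : Fin y ⊕ Fin a => Kd.sm) = 0 := by
    have h2 := V8.gd_A0_leG M hinj him hβ hmem (Sum.elim mL fun _ : Fin y ⊕ Fin a => Kd.sm) (by
      rintro (i | i)
      · exact hLm i
      · exact ⟨le_rfl, hM, empty_subset _⟩)
    have h3 : (LSU c t (del c j u) M (n - c) j).gd (Sum.elim mL fun _ : Fin y ⊕ Fin a => Kd.sm) = 0 := by
      rw [gd_eq_gM, map_elim, hmL, ST.map_const, Fintype.card_sum, Fintype.card_fin, Fintype.card_fin]
      exact h0
    have h4 : (LSA M (blk c (n - c)) (ExU c t (del c j u) (n - c) (2 * M - 1) j)).gd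
      (Sum.elim mL fun _ : Fin y ⊕ Fin a => Kd.sm) = 0 := h3
    omega
  have h2 := dh_gd M hM (blk c n) j (ExU c t u n (2 * M - 1) j) (by
    intro e he s
    have h3 := (mem_Ex.1 (mem_ExU.1 he).1).1
    have h4 : e s ≤ ∑ s, e s := single_le_sum (f := e) (fun _ _ => Nat.zero_le _) (mem_univ s)
    omega) mL mO y a h1
  rw [DHm_A1] at h2
  rw [gd_eq_gM, gd_eq_gM, map_elim, map_elim, map_elim, map_elim, map_elim, ST.map_const, ST.map_const,
    ST.map_const, hmL, hmO, Fintype.card_fin, Fintype.card_fin] at h2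
  have h3 : (univ : Finset (Fin sL.toList.length)).val.map (fun x => (mL x).add j) =
      sL.map (Kd.add j) := by
    have h4 := congrArg (Multiset.map (Kd.add j)) hmL
    rw [Multiset.map_map] at h4
    exact h4
  rw [h3] at h2
  have e1 : sL + sO + Multiset.replicate y (Kd.ord M ∅) + Multiset.replicate a Kd.sm =
      sL + (sO + (Multiset.replicate y (Kd.ord M ∅) + Multiset.replicate a Kd.sm)) := by
    simp only [add_assoc]
  have e2 : sL.map (Kd.add j) + sO + Multiset.replicate y (Kd.sw j ∅) =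
      sL.map (Kd.add j) + (sO + Multiset.replicate y (Kd.sw j ∅)) := by
    simp only [add_assoc]
  rw [e1, e2]
  exact h2

end Pool.Agent.VU
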