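import Pool.Agent.V7.Top.Inp
import Pool.Agent.V7.ST.Bb

/-!
# VU: up to `δ r` points of arbitrary multiplicity, the critical half

As V8, but the bounded variables are inside the blocks: at the first `t` variables of every block of
size `c` the exponents are at most `u s` (`1 ≤ u s`; `u s ≥ 2 M - 1` means: no bound).  Without the block `j` the
bounds are `del c j u`.  So the number of bounded variables falls together with the number of
variables, and all constants are uniform in `u`.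
-/

set_option autoImplicit false

namespace Pool.Agent.VU

open Finset Pool.Agent.H51.TB Pool.Agent.H54.V7 Pool.Agent.V7 Pool.Agent.V7.ST

/-! ### The bounded exponents -/

/-- The exponents at the first `t` variables of every block of size `c` are at most `u s`. -/
def Bd (c t : ℕ) (u : ℕ → ℕ) {n : ℕ} (a : Fin n → ℕ) : Prop :=
  ∀ s : Fin n, s.1 % c < t → a s ≤ u s.1

instance (c t : ℕ) (u : ℕ → ℕ) {n : ℕ} : DecidablePred (Bd c t u : (Fin n → ℕ) → Prop) :=
  fun _ => by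
    unfold Bd
    infer_instance

/-- The bounds without the block `j`. -/
def del (c j : ℕ) (u : ℕ → ℕ) : ℕ → ℕ := fun s => if s < j * c then u s else u (s + c)

/-- The exponents of degree `d` in `n` variables which meet the blocks `0, …, j - 1` and satisfy the
bounds. -/
def ExU (c t : ℕ) (u : ℕ → ℕ) (n d j : ℕ) : Finset (Fin n → ℕ) :=
  (Ex (blk c n) d j).filter (Bd c t u)

theorem mem_ExU {c t : ℕ} {u : ℕ → ℕ} {n d j : ℕ} {a : Fin n → ℕ} :
    a ∈ ExU c t u n d j ↔ a ∈ Ex (blk c n) d j ∧ Bd c t u a := by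
  unfold ExU
  rw [mem_filter]

/-- The number of exponents of degree `k` in `n` variables which meet the blocks of `I` and satisfy the
bounds. -/
def wU (c t : ℕ) (u : ℕ → ℕ) (n k : ℕ) (I : Finset ℕ) : ℕ :=
  ((mset (bk c n) univ I k).filter (Bd c t u)).card

theorem card_ExU (c t : ℕ) (u : ℕ → ℕ) (n d j : ℕ) :
    (ExU c t u n d j).card = wU c t u n d (range j) := by
  unfold ExU wU
  rw [Ex_eq_mset]

/-- The system of the level `j`. -/
noncomputable abbrev LSU (c t : ℕ) (u : ℕ → ℕ) (M n j : ℕ) :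
    Sys {a // a ∈ ExU c t u n (2 * M - 1) j} (Fin n ⊕ Fin n) Kd :=
  LSA M (blk c n) (ExU c t u n (2 * M - 1) j)

/-! ### Weights `W k I` for a fixed number of variables -/

/-- The number of conditions of a kind. -/
def wtI (M : ℕ) (W : ℕ → Finset ℕ → ℕ) : Kd → ℕ
  | .ord μ I => W (μ - 1) I
  | .sw _ I => W (M - 1) I - if I = ∅ then 1 else 0

/-- The virtual dimension of a configuration on the level `j`. -/
def vdI (M : ℕ) (W : ℕ → Finset ℕ → ℕ) (j : ℕ) (s : Multiset Kd) : ℤ :=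
  (W (2 * M - 1) (range j) : ℤ) - ((s.map (wtI M W)).sum : ℕ)

/-- The virtual dimension of a system with `N τ` points of the kind `τ`. -/
def vNI (M : ℕ) (W : ℕ → Finset ℕ → ℕ) (j : ℕ) (N : Kd → ℕ) : ℤ :=
  (W (2 * M - 1) (range j) : ℤ) - ∑ τ ∈ kds M j, (N τ : ℤ) * (wtI M W τ : ℤ)

/-- The properties of the weights in `n` variables, for the blocks `0, …, j - 1`. -/
structure IsI (A : ℕ → ℕ → ℝ) (c j n : ℕ) (W : ℕ → Finset ℕ → ℕ) : Prop where
  zero : ∀ k I, I ⊆ range j → k < I.card → W k I = 0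
  self : ∀ I, I ⊆ range j → W I.card I = c ^ I.card
  pos : ∀ k I, I ⊆ range j → I.card ≤ k → j * c + k ≤ n → 1 ≤ W k I
  asym : ∀ k I, I ⊆ range j → I.card ≤ k →
    |(W k I : ℝ) - (c : ℝ) ^ I.card / ((k - I.card).factorial : ℝ) * (n : ℝ) ^ (k - I.card)| ≤
      A k I.card / n * (n : ℝ) ^ (k - I.card)

/-- `W'` are the weights without the block `j`. -/
def Rem (j : ℕ) (W W' : ℕ → Finset ℕ → ℕ) : Prop :=
  ∀ k I, I ⊆ range j → W k I = W' k I + W k (insert j I)

/-! ### The statements on the levels -/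

/-- Exactness on the level `j`. -/
def PROPU (M c t j : ℕ) : Prop :=
  ∃ e : ℝ, 0 < e ∧ ∃ n₀ : ℕ, ∀ n : ℕ, n₀ ≤ n → ∀ u : ℕ → ℕ, (∀ s, 1 ≤ u s) → ∀ s : Multiset Kd,
    Cls M c j n e (fun τ => s.count τ) →
      (gM (LSU c t u M n j) s : ℤ) ≤ max 0 (vdI M (wU c t u n) j s)

/-- Independence without points of the kind `ord M (range j)`. -/
def OJU (M c t j : ℕ) : Prop :=
  ∃ e : ℝ, 0 < e ∧ ∃ n₀ : ℕ, ∀ n : ℕ, n₀ ≤ n → ∀ u : ℕ → ℕ, (∀ s, 1 ≤ u s) → ∀ s : Multiset Kd,
    Cls0 M c j n e (fun τ => s.count τ) → Kd.ord M (range j) ∉ s →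
    (gM (LSU c t u M n j) s : ℤ) ≤ vdI M (wU c t u n) j s

/-- The virtual dimension of the points which are not of the type `range k`. -/
def VASI (A : ℕ → ℕ → ℝ) (M c k : ℕ) : Prop :=
  ∃ L : ℝ, 0 < L ∧ ∃ n₀ : ℕ, ∀ n : ℕ, n₀ ≤ n → ∀ W : ℕ → Finset ℕ → ℕ, IsI A c k n W →
    ∀ e : ℝ, 0 ≤ e → e ≤ 1 → ∀ N : Kd → ℕ,
    Cls0 M c k n e N → N (.ord M (range k)) = 0 →
    |(vNI M W k N : ℝ) - (c : ℝ) ^ k *
      ((n : ℝ) ^ M / (((2 * M - 1).choose M : ℝ) * (M.factorial : ℝ)))| ≤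
      (L * e + L / n) * (n : ℝ) ^ M

end Pool.Agent.VU
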