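import Pool.Agent.VU.Defs
import Pool.Agent.V8.F1

/-!
# VU: the dimension is at least the virtual dimension

As `Pool.Agent.V8.F1`, with the bounds `Bd c t u`.
-/

set_option autoImplicit false
set_option linter.unusedSectionVars false

namespace Pool.Agent.VU

open Finset MvPolynomial Pool.Agent.H51.TB Pool.Agent.H54.V7 Pool.Agent.V7 Pool.Agent.V7.ST
open Pool.Agent.V8 (fat_cardG sw_cardG)
open Pool.Agent.H18.Ex

private theorem F1_mod {c t j : ℕ} (ht : t < c) : (j * c + t) % c = t := by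
  rw [Nat.add_comm, Nat.add_mul_mod_self_right, Nat.mod_eq_of_lt ht]

/-- G1 (Pool/Agent/VU/F1.lean): V8's `fat_cardG`, `sw_cardG` with `G = Bd c t u`, `s₀ = j c + t`. -/
theorem size_le_wtU (c t : ℕ) (u : ℕ → ℕ) {M n j : ℕ} (hM : 1 ≤ M) (ht : t < c)
    (h : j * c + t < n) {k : Kd} (hk : k.Ok M j) :
    (LSU c t u M n j).size k ≤ wtI M (wU c t u n) k := by
  classical
  have hc : 0 < c := by omega
  have hE : ∀ e : ExU c t u n (2 * M - 1) j, ∑ s, e.1 s = 2 * M - 1 := fun e =>
    (mem_Ex.1 (mem_ExU.1 e.2).1).1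
  have hG : ∀ a b : Fin n → ℕ, (∀ i, a i ≤ b i) → Bd c t u b → Bd c t u a := fun a b hab hb s hs =>
    (hab s).trans (hb s hs)
  have hGE : ∀ e : ExU c t u n (2 * M - 1) j, Bd c t u e.1 := fun e => (mem_ExU.1 e.2).2
  have hmiss : ∀ {i : ℕ}, i < j → ∀ e : ExU c t u n (2 * M - 1) j,
      ¬ ∀ x ∈ blo (blk c n) i, e.1 x = 0 := fun {i} hi e =>
    Ex_miss hi ⟨e.1, (mem_ExU.1 e.2).1⟩
  obtain ⟨s₀, hs₀v⟩ : ∃ s₀ : Fin n, s₀.1 = j * c + t := ⟨⟨j * c + t, by omega⟩, rfl⟩
  have hs₀ : j ≤ blk c n s₀ := by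
    show j ≤ s₀.1 / c
    rw [hs₀v, Nat.le_div_iff_mul_le hc]
    omega
  have hs₀m : ¬ s₀.1 % c < t := by
    rw [hs₀v, F1_mod ht]
    exact lt_irrefl t
  have hu := gd_unit (LSU c t u M n j) k
  have key : ∃ q : Unit → Fin n ⊕ Fin n → ℂ, q () (Sum.inl s₀) ≠ 0 ∧
      Module.finrank ℂ ((LSU c t u M n j).V (fun _ : Unit => k) q) =
        (LSU c t u M n j).gd fun _ : Unit => k := by
    have h1 : Gn Unit (Fin n ⊕ Fin n) fun q => q () (Sum.inl s₀) ≠ 0 :=
      ⟨X ((), Sum.inl s₀), X_ne_zero _, fun p hp => by rwa [eval_X] at hp⟩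
    exact (h1.and (gn_gd (LSU c t u M n j) fun _ : Unit => k)).exists
  obtain ⟨q, hq0, hq⟩ := key
  suffices h : Fintype.card (ExU c t u n (2 * M - 1) j) ≤
      Module.finrank ℂ ((LSU c t u M n j).V (fun _ : Unit => k) q) + wtI M (wU c t u n) k by
    omega
  have htop : Module.finrank ℂ (⊤ : Submodule ℂ (ExU c t u n (2 * M - 1) j → ℂ)) =
      Fintype.card (ExU c t u n (2 * M - 1) j) := by
    rw [finrank_top, Module.finrank_fintype_fun_eq_card]
  rw [← htop]
  rcases k with ⟨μ, I⟩ | ⟨i, I⟩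
  · obtain ⟨h1, h2, h3⟩ := hk
    have h4 := fat_cardG (fun e : ExU c t u n (2 * M - 1) j => e.1) (Bd c t u) hG hGE
      (2 * M - 1) μ h1 (by omega) hE (blo (blk c n)) I
      (fun k hk e => hmiss (mem_range.1 (h3 hk)) e)
      (msk (blk c n) I fun s => q () (Sum.inl s)) (fun k hk => msk_blo (blk c n) _ hk) ⊤
      ((LSU c t u M n j).V (fun _ : Unit => Kd.ord μ I) q) (fun f _ hf => by
        rw [mem_LSA]
        exact fun _ => hf)
    exact h4
  · obtain ⟨h1, h2⟩ := hk
    have hiI : i ∉ I := fun h => by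
      have := mem_Ico.1 (h2 h)
      omega
    have hlt : ∀ k ∈ insert i I, k < j := fun k hk => by
      rcases mem_insert.1 hk with h | h
      · rw [h]
        exact h1
      · exact (mem_Ico.1 (h2 h)).2
    have hs₀' : ∀ k ∈ insert i I, s₀ ∉ blo (blk c n) k := fun k hk h => by
      have h3 := (mem_filter.1 h).2
      have h4 := hlt k hk
      omega
    have hne : blk c n s₀ ∉ insert i I := fun h => by
      have h4 := hlt _ h
      omega
    have h4 := sw_cardG (fun e : ExU c t u n (2 * M - 1) j => e.1) (Bd c t u) hG hGE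
      (2 * M - 1) M (2 * M) hM (by omega) (by omega) hE (blo (blk c n)) I i hiI
      (fun k hk e => hmiss (hlt k hk) e)
      (msk (blk c n) (insert i I) fun s => q () (Sum.inl s))
      (msk (blk c n) I fun s => q () (Sum.inr s))
      (fun k hk => msk_blo (blk c n) _ hk) (fun k hk => msk_blo (blk c n) _ hk) s₀ hs₀'
      (fun a x ha s hs => by
        have h6 : s ≠ s₀ := fun h7 => hs₀m (h7 ▸ hs)
        rw [Function.update_of_ne h6]
        exact ha s hs)
      (fun _ _ => Nat.zero_le _)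
      (by
        unfold msk
        rw [if_neg hne]
        exact hq0) ⊤
      ((LSU c t u M n j).V (fun _ : Unit => Kd.sw i I) q) (fun f _ hf hf' => by
        rw [mem_LSA]
        exact fun _ => ⟨hf, hf'⟩)
    have h5 : I ⊆ range j := fun k hk => mem_range.2 (hlt k (mem_insert_of_mem hk))
    exact h4

/-- G2 (Pool/Agent/VU/F1.lean) -/
theorem vdU_le_gMU (c t : ℕ) (u : ℕ → ℕ) {M n j : ℕ} (hM : 1 ≤ M) (ht : t < c)
    (h : j * c + t < n) (s : Multiset Kd) (hs : ∀ k ∈ s, k.Ok M j) :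
    vdI M (wU c t u n) j s ≤ gM (LSU c t u M n j) s := by
  induction s using Multiset.induction_on with
  | empty =>
    rw [gM_zero, Fintype.card_coe, card_ExU]
    unfold vdI
    simp
  | cons k s ih =>
    have h1 := ih fun k' hk' => hs k' (Multiset.mem_cons_of_mem hk')
    have h2 := gM_le_cons (LSU c t u M n j) s k
    have h3 := size_le_wtU c t u hM ht h (hs k (Multiset.mem_cons_self k s))
    unfold vdI at h1 ⊢
    rw [Multiset.map_cons, Multiset.sum_cons]
    push_cast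
    push_cast at h1
    have h4 : (gM (LSU c t u M n j) s : ℤ) ≤
        gM (LSU c t u M n j) (k ::ₘ s) + wtI M (wU c t u n) k := by
      exact_mod_cast h2.trans (Nat.add_le_add_left h3 _)
    linarith

end Pool.Agent.VU
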