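import Pool.Agent.VU.Defs
import Pool.Agent.V7.Num.Asym
import Pool.Agent.V7.ST.Canon

/-!
# VU, WTS: the weights `wU`
-/

set_option autoImplicit false

namespace Pool.Agent.VU

open Finset Pool.Agent.H51.TB Pool.Agent.H54.V7 Pool.Agent.V7 Pool.Agent.V7.ST

/-- The number of exponents without the bounds. -/
private theorem wts_card_mset_j {c n j : ℕ} (hc : 1 ≤ c) (hn : j * c ≤ n) (k : ℕ) {I : Finset ℕ}
    (hI : I ⊆ range j) : (mset (bk c n) univ I k).card = bb c k I.card n := by
  refine card_mset_bb hc k I fun i hi => ?_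
  exact (Nat.mul_le_mul_right c (mem_range.1 (hI hi))).trans hn

private theorem wts_card_I_le {c n j : ℕ} (hn : j * c ≤ n) {I : Finset ℕ} (hI : I ⊆ range j) :
    I.card * c ≤ n := by
  have h1 := card_le_card hI
  rw [card_range] at h1
  exact (Nat.mul_le_mul_right c h1).trans hn

private theorem wts_wU_le {c n j : ℕ} (hc : 1 ≤ c) (hn : j * c ≤ n) (t : ℕ) (u : ℕ → ℕ) (k : ℕ)
    {I : Finset ℕ} (hI : I ⊆ range j) : wU c t u n k I ≤ bb c k I.card n := by
  rw [← wts_card_mset_j hc hn k hI]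
  exact card_filter_le _ _

/-- Exponents which do not satisfy the bounds have an exponent `≥ 2`. -/
private theorem wts_le_wU' {u : ℕ → ℕ} (hu : ∀ s, 1 ≤ u s) (c t n k : ℕ) (I : Finset ℕ) :
    (mset (bk c n) univ I k).card ≤
      wU c t u n k I + (k - 1) * (mset (bk c n) univ I (k - 1)).card := by
  classical
  have h1 : (mset (bk c n) univ I k).card = wU c t u n k I +
      ((mset (bk c n) univ I k).filter fun a => ¬ Bd c t u a).card := by
    unfold wU
    exact (card_filter_add_card_filter_not _).symm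
  rw [h1]
  refine Nat.add_le_add_left ?_ _
  set T := (mset (bk c n) univ I (k - 1)).sigma
    (fun b : Fin n → ℕ => univ.filter fun s => b s ≠ 0) with hT
  have h2 : ((mset (bk c n) univ I k).filter fun a => ¬ Bd c t u a) ⊆
      T.image (fun x => Function.update x.1 x.2 (x.1 x.2 + 1)) := by
    intro a ha
    rw [mem_filter, mem_mset] at ha
    obtain ⟨⟨⟨ha1, -⟩, ha2⟩, ha3⟩ := ha
    unfold Bd at ha3
    push Not at ha3
    obtain ⟨s, -, hs⟩ := ha3
    have hs2 : 2 ≤ a s := by
      have := hu s.1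
      omega
    rw [mem_image]
    refine ⟨⟨Function.update a s (a s - 1), s⟩, ?_, ?_⟩
    · rw [hT, mem_sigma, mem_mset, mem_filter]
      refine ⟨⟨⟨?_, fun x _ => mem_univ x⟩, fun i hi h4 => ?_⟩, mem_univ _, ?_⟩
      · have h5 : ∑ x, Function.update a s (a s - 1) x + 1 = k := by
          rw [← ha1, sum_update_of_mem (mem_univ s), ← add_sum_erase univ a (mem_univ s),
            sdiff_singleton_eq_erase]
          omega
        show ∑ x, Function.update a s (a s - 1) x = k - 1
        omega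
      · refine ha2 i hi fun x hx => ?_
        have h5 := h4 x hx
        by_cases h6 : x = s
        · subst h6
          have h7 : Function.update a x (a x - 1) x = 0 := h5
          rw [Function.update_self] at h7
          omega
        · have h7 : Function.update a s (a s - 1) x = 0 := h5
          rw [Function.update_of_ne h6] at h7
          exact h7
      · show Function.update a s (a s - 1) s ≠ 0
        rw [Function.update_self]
        omega
    · show Function.update (Function.update a s (a s - 1)) s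
        (Function.update a s (a s - 1) s + 1) = a
      rw [Function.update_self, Function.update_idem, Nat.sub_add_cancel (by omega),
        Function.update_eq_self]
  refine (card_le_card h2).trans (card_image_le.trans ?_)
  rw [hT, card_sigma, mul_comm]
  refine (sum_le_card_nsmul _ _ (k - 1) fun b hb => ?_).trans (by rw [smul_eq_mul])
  rw [mem_mset] at hb
  rw [← hb.1.1, card_filter]
  refine sum_le_sum fun x _ => ?_
  split_ifs with h4
  · omega
  · exact Nat.zero_le _

private theorem wts_le_wU {c n j : ℕ} (hc : 1 ≤ c) (hn : j * c ≤ n) (t : ℕ) {u : ℕ → ℕ}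
    (hu : ∀ s, 1 ≤ u s) (k : ℕ) {I : Finset ℕ} (hI : I ⊆ range j) :
    bb c k I.card n ≤ wU c t u n k I + (k - 1) * bb c (k - 1) I.card n := by
  rw [← wts_card_mset_j hc hn k hI, ← wts_card_mset_j hc hn (k - 1) hI]
  exact wts_le_wU' hu c t n k I

private theorem wts_wU_self {c n j : ℕ} (hc : 1 ≤ c) (hn : j * c ≤ n) (t : ℕ) {u : ℕ → ℕ}
    (hu : ∀ s, 1 ≤ u s) {I : Finset ℕ} (hI : I ⊆ range j) :
    wU c t u n I.card I = c ^ I.card := by
  have h1 := wts_wU_le hc hn t u I.card hI
  have h2 := wts_le_wU hc hn t hu I.card hI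
  have h3 := wts_card_I_le hn hI
  rw [bb_self c _ n h3] at h1 h2
  have h4 : (I.card - 1) * bb c (I.card - 1) I.card n = 0 := by
    rcases Nat.eq_zero_or_pos I.card with h5 | h5
    · rw [h5, Nat.zero_sub, Nat.zero_mul]
    · rw [bb_zero c _ _ n h3 (by omega), Nat.mul_zero]
  omega

private theorem wts_wU_pos {c n j : ℕ} (hc : 1 ≤ c) (t : ℕ) {u : ℕ → ℕ}
    (hu : ∀ s, 1 ≤ u s) {k : ℕ} {I : Finset ℕ} (hI : I ⊆ range j) (hk : I.card ≤ k)
    (hn : j * c + k ≤ n) : 1 ≤ wU c t u n k I := by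
  classical
  set S : Finset ℕ := I.image (· * c) ∪ Ico (j * c) (j * c + (k - I.card)) with hS
  have hSn : ∀ x ∈ S, x < n := by
    intro x hx
    rw [hS, mem_union, mem_image, mem_Ico] at hx
    rcases hx with ⟨i, hi, rfl⟩ | hx
    · have h1 := Nat.mul_le_mul_right c (mem_range.1 (hI hi))
      have h2 : i.succ * c = i * c + c := Nat.succ_mul i c
      omega
    · omega
  have hSc : S.card = k := by
    rw [hS, card_union_of_disjoint, card_image_of_injective, Nat.card_Ico]
    · omega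
    · intro a b hab
      exact Nat.eq_of_mul_eq_mul_right hc hab
    · rw [disjoint_left]
      intro x hx hx'
      rw [mem_image] at hx
      rw [mem_Ico] at hx'
      obtain ⟨i, hi, rfl⟩ := hx
      have h1 := Nat.mul_le_mul_right c (mem_range.1 (hI hi))
      have h2 : i.succ * c = i * c + c := Nat.succ_mul i c
      omega
  unfold wU
  rw [Nat.succ_le_iff, card_pos]
  refine ⟨fun x => if x.1 ∈ S then 1 else 0, ?_⟩
  rw [mem_filter, mem_mset]
  refine ⟨⟨⟨?_, fun x _ => mem_univ x⟩, fun i hi h1 => ?_⟩, fun s _ => ?_⟩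
  · rw [← card_filter, ← hSc]
    refine card_bij (fun x _ => x.1) (fun x hx => (mem_filter.1 hx).2)
      (fun x _ y _ hxy => Fin.ext hxy) fun x hx => ⟨⟨x, hSn x hx⟩, ?_, rfl⟩
    rw [mem_filter]
    exact ⟨mem_univ _, hx⟩
  · have h2 : i * c ∈ S := by
      rw [hS, mem_union, mem_image]
      exact Or.inl ⟨i, hi, rfl⟩
    have h3 := h1 ⟨i * c, hSn _ h2⟩ (by
      rw [mem_bk]
      exact Nat.mul_div_cancel i hc)
    rw [if_pos h2] at h3
    exact one_ne_zero h3
  · have h1 := hu s.1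
    show (if s.1 ∈ S then 1 else 0) ≤ u s.1
    split_ifs
    · exact h1
    · exact Nat.zero_le _

/-- An upper bound for `bb`. -/
private theorem wts_bb_le_pow (c k j : ℕ) (hj : j ≤ k) : ∃ C : ℝ, 0 < C ∧ ∀ n : ℕ, 1 ≤ n →
    j * c ≤ n → (bb c k j n : ℝ) ≤ C * (n : ℝ) ^ (k - j) := by
  obtain ⟨C, hC, h⟩ := bb_asym c k j hj
  refine ⟨(c : ℝ) ^ j / ((k - j).factorial : ℝ) + C, by positivity, fun n hn hjn => ?_⟩
  have h1 := h n hn hjn
  have hn1 : (1 : ℝ) ≤ (n : ℝ) := by exact_mod_cast hn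
  have h2 : C / n * (n : ℝ) ^ (k - j) ≤ C * (n : ℝ) ^ (k - j) := by
    refine mul_le_mul_of_nonneg_right (div_le_self hC.le hn1) (by positivity)
  have h3 := (abs_le.1 h1).2
  calc (bb c k j n : ℝ) ≤ (c : ℝ) ^ j / ((k - j).factorial : ℝ) * (n : ℝ) ^ (k - j) +
        C / n * (n : ℝ) ^ (k - j) := by linarith
    _ ≤ _ := by rw [add_mul]; linarith

/-- The exponents which do not satisfy the bounds are few. -/
private theorem wts_bb_few (c k i : ℕ) (hi : i ≤ k) : ∃ C : ℝ, 0 < C ∧ ∀ n : ℕ, 1 ≤ n →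
    i * c ≤ n → (((k - 1) * bb c (k - 1) i n : ℕ) : ℝ) ≤ C / n * (n : ℝ) ^ (k - i) := by
  rcases Nat.lt_or_ge (k - 1) i with h | h
  · refine ⟨1, one_pos, fun n hn hin => ?_⟩
    have h1 : (k - 1) * bb c (k - 1) i n = 0 := by
      rw [bb_zero c _ _ n hin h, Nat.mul_zero]
    rw [h1, Nat.cast_zero]
    positivity
  · rcases Nat.eq_zero_or_pos k with hk | hk
    · refine ⟨1, one_pos, fun n hn hin => ?_⟩
      subst hk
      rw [Nat.zero_sub, Nat.zero_mul, Nat.cast_zero]
      positivity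
    · obtain ⟨C, hC, h'⟩ := wts_bb_le_pow c (k - 1) i h
      refine ⟨((k - 1 : ℕ) : ℝ) * C + 1, by positivity, fun n hn hin => ?_⟩
      have h1 := h' n hn hin
      have hn1 : (1 : ℝ) ≤ (n : ℝ) := by exact_mod_cast hn
      have hn0 : (0 : ℝ) < (n : ℝ) := by linarith
      have h4 : (n : ℝ) ^ (k - i) = n * (n : ℝ) ^ (k - 1 - i) := by
        rw [← pow_succ', show k - 1 - i + 1 = k - i by omega]
      have h5 : (0 : ℝ) ≤ ((k - 1 : ℕ) : ℝ) := Nat.cast_nonneg _
      rw [h4]
      push_cast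
      calc ((k - 1 : ℕ) : ℝ) * (bb c (k - 1) i n : ℝ) ≤
            ((k - 1 : ℕ) : ℝ) * (C * (n : ℝ) ^ (k - 1 - i)) := mul_le_mul_of_nonneg_left h1 h5
        _ = (((k - 1 : ℕ) : ℝ) * C) / n * (n * (n : ℝ) ^ (k - 1 - i)) := by field_simp
        _ ≤ (((k - 1 : ℕ) : ℝ) * C + 1) / n * (n * (n : ℝ) ^ (k - 1 - i)) := by
            refine mul_le_mul_of_nonneg_right ?_ (by positivity)
            exact div_le_div_of_nonneg_right (by linarith) hn0.le

private theorem wts_wU_asym (c k i : ℕ) (hc : 1 ≤ c) : ∃ A : ℝ, 0 < A ∧ ∀ (n j : ℕ) (I : Finset ℕ),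
    I ⊆ range j → I.card = i → i ≤ k → j * c ≤ n → 1 ≤ n → ∀ (t : ℕ) (u : ℕ → ℕ),
    (∀ s, 1 ≤ u s) →
    |(wU c t u n k I : ℝ) - (c : ℝ) ^ i / ((k - i).factorial : ℝ) * (n : ℝ) ^ (k - i)| ≤
      A / n * (n : ℝ) ^ (k - i) := by
  rcases Nat.lt_or_ge k i with hki | hki
  · exact ⟨1, one_pos, fun n j I _ _ h => absurd h (by omega)⟩
  obtain ⟨C₁, hC₁, h₁⟩ := bb_asym c k i hki
  obtain ⟨C₂, hC₂, h₂⟩ := wts_bb_few c k i hki
  refine ⟨C₁ + C₂, by positivity, fun n j I hI hIc _ hn hn0 t u hu => ?_⟩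
  have h3 := h₁ n hn0 (by rw [← hIc]; exact wts_card_I_le hn hI)
  have h4 := h₂ n hn0 (by rw [← hIc]; exact wts_card_I_le hn hI)
  have h5 := wts_wU_le hc hn t u k hI
  have h6 := wts_le_wU hc hn t hu k hI
  rw [hIc] at h5 h6
  have h5' : (wU c t u n k I : ℝ) ≤ (bb c k i n : ℝ) := by exact_mod_cast h5
  have h6' : (bb c k i n : ℝ) ≤ (wU c t u n k I : ℝ) +
      (((k - 1) * bb c (k - 1) i n : ℕ) : ℝ) := by
    exact_mod_cast h6
  have hP : 0 ≤ (n : ℝ) ^ (k - i) / n := by positivity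
  have e1 : C₁ / n * (n : ℝ) ^ (k - i) = C₁ * ((n : ℝ) ^ (k - i) / n) := by ring
  have e2 : C₂ / n * (n : ℝ) ^ (k - i) = C₂ * ((n : ℝ) ^ (k - i) / n) := by ring
  have e3 : (C₁ + C₂) / n * (n : ℝ) ^ (k - i) =
      C₁ * ((n : ℝ) ^ (k - i) / n) + C₂ * ((n : ℝ) ^ (k - i) / n) := by ring
  rw [e1] at h3
  rw [e2] at h4
  rw [e3]
  have h7 := abs_le.1 h3
  have h8 : 0 ≤ C₂ * ((n : ℝ) ^ (k - i) / n) := mul_nonneg hC₂.le hP
  rw [abs_le]
  constructor
  · linarith [h7.1]
  · linarith [h7.2]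

/-- W1: the weights `wU` have the properties `IsI` with constants which do not depend on the
bounds. -/
theorem isI_wU (c : ℕ) (hc : 1 ≤ c) : ∃ A : ℕ → ℕ → ℝ, (∀ k i, 0 < A k i) ∧
    ∀ (t : ℕ) (u : ℕ → ℕ), (∀ s, 1 ≤ u s) → ∀ n j : ℕ, j * c ≤ n → 1 ≤ n →
      IsI A c j n (wU c t u n) := by
  choose A hA0 hA using fun k i => wts_wU_asym c k i hc
  refine ⟨A, hA0, fun t u hu n j hn hn1 => ?_⟩
  constructor
  · intro k I hI hk
    have h1 := wts_wU_le hc hn t u k hI
    rw [bb_zero c _ _ n (wts_card_I_le hn hI) hk] at h1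
    omega
  · intro I hI
    exact wts_wU_self hc hn t hu hI
  · intro k I hI hk hn'
    exact wts_wU_pos hc t hu hI hk hn'
  · intro k I hI hk
    exact hA k I.card n j I hI rfl hk hn hn1 t u hu

private theorem wts_cut_inl_val {c j n : ℕ} (h : j * c ≤ n) (s : Fin n) :
    (cut c j n h (Sum.inl s)).1 = if s.1 < j * c then s.1 else s.1 + c := by
  show (if s.1 < j * c then (⟨s.1, by omega⟩ : Fin (n + c)) else ⟨s.1 + c, by omega⟩).1 = _
  split_ifs <;> rfl

private theorem wts_bd_cut {c j n : ℕ} (h : j * c ≤ n) (t : ℕ) (u : ℕ → ℕ) (a : Fin (n + c) → ℕ)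
    (ha : ∀ x : Fin c, a (cut c j n h (Sum.inr x)) = 0) :
    Bd c t u a ↔ Bd c t (del c j u) fun s => a (cut c j n h (Sum.inl s)) := by
  constructor
  · intro h1 s hs
    have h2 := h1 (cut c j n h (Sum.inl s))
    have h3 := wts_cut_inl_val h s
    have h4 : (cut c j n h (Sum.inl s)).1 % c = s.1 % c := by
      rw [h3]
      split_ifs
      · rfl
      · exact Nat.add_mod_right _ _
    rw [h4] at h2
    refine (h2 hs).trans (le_of_eq ?_)
    rw [h3]
    unfold del
    split_ifs <;> rfl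
  · intro h1 s hs
    obtain ⟨x, rfl⟩ := (cut c j n h).surjective s
    rcases x with x | x
    · have h3 := wts_cut_inl_val h x
      have h4 : (cut c j n h (Sum.inl x)).1 % c = x.1 % c := by
        rw [h3]
        split_ifs
        · rfl
        · exact Nat.add_mod_right _ _
      rw [h4] at hs
      refine (h1 x hs).trans (le_of_eq ?_)
      rw [h3]
      unfold del
      split_ifs <;> rfl
    · rw [ha x]
      exact Nat.zero_le _

private theorem wts_rem_wU' (c t : ℕ) (hc : 1 ≤ c) (u : ℕ → ℕ) (n j : ℕ) (h : j * c ≤ n) :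
    Rem j (wU c t u (n + c)) (wU c t (del c j u) n) := by
  classical
  intro k I hI
  unfold wU
  have h1 : (mset (bk c (n + c)) univ (insert j I) k).filter (Bd c t u) =
      ((mset (bk c (n + c)) univ I k).filter (Bd c t u)).filter
        fun a => ¬ ∀ x ∈ bk c (n + c) j, a x = 0 := by
    ext a
    rw [mem_filter, mem_filter, mem_filter, mem_mset, mem_mset]
    constructor
    · rintro ⟨⟨h2, h3⟩, h4⟩
      exact ⟨⟨⟨h2, fun i hi => h3 i (mem_insert_of_mem hi)⟩, h4⟩, h3 j (mem_insert_self j I)⟩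
    · rintro ⟨⟨⟨h2, h3⟩, h4⟩, h5⟩
      refine ⟨⟨h2, fun i hi => ?_⟩, h4⟩
      rcases mem_insert.1 hi with rfl | hi
      · exact h5
      · exact h3 i hi
  rw [h1, ← card_filter_add_card_filter_not
    (s := (mset (bk c (n + c)) univ I k).filter (Bd c t u))
    (fun a => ∀ x ∈ bk c (n + c) j, a x = 0)]
  refine congrArg (· + _) ?_
  -- the exponents which do not meet the block `j`
  have hbl : ∀ x : Fin n ⊕ Fin c, cut c j n h x ∈ bk c (n + c) j → ∃ y, x = Sum.inr y := by
    intro x hx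
    rcases x with x | x
    · rw [mem_bk] at hx
      exact absurd hx (bt_ne hc h x)
    · exact ⟨x, rfl⟩
  have hin : ∀ a : Fin (n + c) → ℕ, (∀ x ∈ bk c (n + c) j, a x = 0) ↔
      ∀ x : Fin c, a (cut c j n h (Sum.inr x)) = 0 := by
    intro a
    constructor
    · intro h2 x
      refine h2 _ (mem_bk.2 ?_)
      exact blk_inr hc h x
    · intro h2 x hx
      obtain ⟨y, rfl⟩ := (cut c j n h).surjective x
      obtain ⟨z, rfl⟩ := hbl y hx
      exact h2 z
  have hmeet : ∀ (a : Fin (n + c) → ℕ) (i : ℕ), i ∈ I → ((∀ x ∈ bk c (n + c) i, a x = 0) ↔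
      ∀ x ∈ bk c n i, a (cut c j n h (Sum.inl x)) = 0) := by
    intro a i hi
    have hij := mem_range.1 (hI hi)
    constructor
    · intro h2 x hx
      rw [mem_bk] at hx
      refine h2 _ (mem_bk.2 ?_)
      have h3 := bt_cases hc h x
      have h4 : blk c n x = i := hx
      rcases h3 with h3 | h3
      · exact h3.1.trans h4
      · omega
    · intro h2 x hx
      obtain ⟨y, rfl⟩ := (cut c j n h).surjective x
      rcases y with y | y
      · refine h2 y (mem_bk.2 ?_)
        have h3 := bt_cases hc h y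
        have h4 : bt c j n h y = i := mem_bk.1 hx
        rcases h3 with h3 | h3
        · exact h3.1.symm.trans h4
        · omega
      · have h3 : blk c (n + c) (cut c j n h (Sum.inr y)) = i := mem_bk.1 hx
        rw [blk_inr hc h y] at h3
        omega
  have hsum : ∀ a : Fin (n + c) → ℕ, ∑ x, a x =
      ∑ s : Fin n, a (cut c j n h (Sum.inl s)) + ∑ x : Fin c, a (cut c j n h (Sum.inr x)) := by
    intro a
    rw [← Fintype.sum_sum_type fun x => a (cut c j n h x)]
    exact ((cut c j n h).sum_comp a).symm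
  refine card_nbij' (fun a s => a (cut c j n h (Sum.inl s)))
    (fun b x => Sum.elim b (fun _ => 0) ((cut c j n h).symm x)) ?_ ?_ ?_ ?_
  · intro a ha
    rw [mem_coe, mem_filter, mem_filter, mem_mset] at ha
    obtain ⟨⟨⟨⟨h2, -⟩, h3⟩, h4⟩, h5⟩ := ha
    have h6 := (hin a).1 h5
    rw [mem_coe, mem_filter, mem_mset]
    refine ⟨⟨⟨?_, fun x _ => mem_univ x⟩, fun i hi h7 => ?_⟩, (wts_bd_cut h t u a h6).1 h4⟩
    · rw [← h2, hsum a, sum_congr rfl fun x _ => h6 x, sum_const_zero, add_zero]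
    · exact h3 i hi ((hmeet a i hi).2 h7)
  · intro b hb
    rw [mem_coe, mem_filter, mem_mset] at hb
    obtain ⟨⟨⟨h2, -⟩, h3⟩, h4⟩ := hb
    set a : Fin (n + c) → ℕ := fun x => Sum.elim b (fun _ => 0) ((cut c j n h).symm x) with ha
    have hal : ∀ s, a (cut c j n h (Sum.inl s)) = b s := by
      intro s
      show Sum.elim b (fun _ => 0) ((cut c j n h).symm (cut c j n h (Sum.inl s))) = b s
      rw [Equiv.symm_apply_apply]
      rfl
    have har : ∀ x, a (cut c j n h (Sum.inr x)) = 0 := by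
      intro s
      show Sum.elim b (fun _ => 0) ((cut c j n h).symm (cut c j n h (Sum.inr s))) = 0
      rw [Equiv.symm_apply_apply]
      rfl
    have hab : (fun s => a (cut c j n h (Sum.inl s))) = b := funext hal
    rw [mem_coe, mem_filter, mem_filter, mem_mset]
    refine ⟨⟨⟨⟨?_, fun x _ => mem_univ x⟩, fun i hi h7 => ?_⟩, ?_⟩, (hin a).2 har⟩
    · rw [hsum a, sum_congr rfl fun x _ => har x, sum_const_zero, add_zero,
        sum_congr rfl fun x _ => hal x]
      exact h2
    · refine h3 i hi fun x hx => ?_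
      rw [← hal x]
      exact (hmeet a i hi).1 h7 x hx
    · rw [wts_bd_cut h t u a har, hab]
      exact h4
  · intro a ha
    rw [mem_coe, mem_filter] at ha
    have h6 := (hin a).1 ha.2
    funext x
    obtain ⟨y, rfl⟩ := (cut c j n h).surjective x
    show Sum.elim (fun s => a (cut c j n h (Sum.inl s))) (fun _ => 0)
      ((cut c j n h).symm (cut c j n h y)) = a (cut c j n h y)
    rw [Equiv.symm_apply_apply]
    rcases y with y | y
    · rfl
    · exact (h6 y).symm
  · intro b _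
    funext s
    show Sum.elim b (fun _ => 0) ((cut c j n h).symm (cut c j n h (Sum.inl s))) = b s
    rw [Equiv.symm_apply_apply]
    rfl

/-- W2: without the block `j`. -/
theorem rem_wU (c t j n : ℕ) (u : ℕ → ℕ) (hc : 1 ≤ c) (h : (j + 1) * c ≤ n) :
    Rem j (wU c t u n) (wU c t (del c j u) (n - c)) := by
  have h1 : (j + 1) * c = j * c + c := Nat.succ_mul j c
  obtain ⟨m, rfl⟩ : ∃ m, n = m + c := ⟨n - c, by omega⟩
  rw [Nat.add_sub_cancel]
  exact wts_rem_wU' c t hc u m j (by omega)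

end Pool.Agent.VU
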