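import Pool.Agent.VU.Step
import Pool.Agent.VU.Num.Vas
import Pool.Agent.VU.Room.Alpha
import Pool.Agent.VU.Top.Prop
import Pool.Agent.VU.Bridge
import Pool.Agent.VU.Wts
import Pool.Agent.V7.Final

/-!
# VU: assembly of the critical half

`critU`: up to `δ r` points of arbitrary multiplicities `J i ≤ 2 M - 2` and points of multiplicity at
most `M`, of which the `M`-fold ones carry almost all conditions, kill all forms of degree `2 M - 1` if
they have enough conditions.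
-/

set_option autoImplicit false
set_option linter.unusedSectionVars false

namespace Pool.Agent.VU

open Finset Pool.Agent.H51.TB Pool.Agent.V7 Pool.Agent.V7.ST
open Pool.Agent.V8 (KillAt NJ)
open Pool.Agent.H18.Ex (Kind ell GM)

/-- Exactness on the level `0`, with `t ≥ 1` bounded variables in every block of size `c`. -/
theorem propU_zero (M : ℕ) (hM : 2 ≤ M) : ∃ c t : ℕ, 1 ≤ t ∧ t < c ∧ PROPU M c t 0 := by
  obtain ⟨L₁, hL₁, h₁⟩ := alphaU M hM
  obtain ⟨c₂, L₂, hL₂, h₂⟩ := beta M hM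
  obtain ⟨t, ht⟩ : ∃ t, t = L₁ * L₂ := ⟨_, rfl⟩
  have ht1 : 1 ≤ t := by
    rw [ht]
    exact Nat.mul_pos hL₁ hL₂
  obtain ⟨c₁, h₁⟩ := h₁ t
  obtain ⟨m, hm⟩ : ∃ m, m = c₁ + c₂ + 2 * (2 * M - 1).choose M * M + 1 := ⟨_, rfl⟩
  obtain ⟨c, hc⟩ : ∃ c, c = t * m + t := ⟨_, rfl⟩
  have hge : m ≤ t * m := Nat.le_mul_of_pos_left _ ht1
  have htc : t < c := by omega
  have hc1 : 1 ≤ c := by omega
  have hcC : 2 * (2 * M - 1).choose M * M < c := by omega
  have hOJ : ∀ j < M, OJU M c t j := by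
    intro j hj
    rw [hc]
    exact h₁ (t * m) (by omega) (by rw [ht, mul_assoc]; exact Dvd.intro _ rfl) j hj
  have hB : BETA M c (M - 1) := h₂ c (by omega) (by
    rw [hc, ht]
    exact dvd_add (dvd_mul_of_dvd_left (Dvd.intro_left _ rfl) _) (Dvd.intro_left _ rfl))
  obtain ⟨A, hA, hW⟩ := isI_wU c hc1
  have hk : M - 1 + 1 = M := by omega
  have h2 : PROPU M c t (M - 1) :=
    propU_of M c t (M - 1) hM hk hc1 htc A hA (fun u hu n hn hn1 => hW t u hu n (M - 1) hn hn1)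
      (hOJ _ (by omega)) (GA.gamma_inp M c (M - 1) hk hM hcC) hB (vasI M c (M - 1) hM hk hc1 A hA)
  refine ⟨c, t, ht1, htc, ?_⟩
  have key : ∀ i, i < M → PROPU M c t (M - 1 - i) := by
    intro i
    induction i with
    | zero => exact fun _ => h2
    | succ i ih =>
      intro hi
      refine stepU M c t (M - 1 - (i + 1)) (by omega) htc hcC (hOJ _ (by omega)) ?_
      have h3 := ih (by omega)
      rwa [show M - 1 - (i + 1) + 1 = M - 1 - i by omega]
  have h3 := key (M - 1) (by omega)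
  rwa [Nat.sub_self] at h3

/-- B2: the critical half. -/
theorem critU (M : ℕ) (hM : 2 ≤ M) :
    ∃ ε : ℝ, 0 < ε ∧ ∃ δ : ℝ, 0 < δ ∧ ∃ r₀ : ℕ, ∀ r, r₀ ≤ r → ∀ K : ℕ, (K : ℝ) ≤ δ * r →
      ∀ J : Fin K → ℕ, (∀ i, J i + 1 ≤ 2 * M - 1) → ∀ S : Multiset ℕ, (∀ m ∈ S, 1 ≤ m ∧ m ≤ M) →
      |((S.count M * ell r M : ℕ) : ℝ) - ((2 * M - 1 + r).choose r : ℝ)| ≤
        ε * ((2 * M - 1 + r).choose r : ℝ) →
      ((((S.filter fun m => m < M).map (ell r)).sum : ℕ) : ℝ) ≤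
        ε * ((2 * M - 1 + r).choose r : ℝ) → KillAt (2 * M - 1) J r S := by
  obtain ⟨c, t, ht1, ht, h⟩ := propU_zero M hM
  exact critU_of M c t hM ht1 ht h

end Pool.Agent.VU
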