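import Pool.Agent.VU.Defs
import Pool.Agent.V7.AL.KDefs

/-!
# VU, block ALPHA: the numbers of points of the chain, with the slack `T c ^ (M - 1)`

As `Pool.Agent.V7.AL.KDefs`, with `T c ^ (M - 1)` instead of `c ^ (M - 1)` and `3 c ^ (M - 1)`.
-/

set_option autoImplicit false

namespace Pool.Agent.VU

open Finset Pool.Agent.V7

/-- The densities. -/
def rhoT (T M c : ℕ) : Kd → ℕ
  | .ord μ _ => if μ = M then c ^ M / (2 * M - 1).choose M + T * c ^ (M - 1) else 1
  | .sw _ _ => T * c ^ (M - 1)

/-- The number of points of the kind `k` on the level `l`. -/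
def nmbT (T M c j l ν : ℕ) (k : Kd) : ℕ :=
  if k ∈ kds M l ∧ k.In M j ∧ l ≤ dgr M k then
    rhoT T M c k * (ν - (l - j)).choose (dgr M k - l) else 0

/-- The configuration on the level `l`. -/
def cfgT (T M c j l ν : ℕ) : Multiset Kd :=
  ∑ k ∈ kds M l, Multiset.replicate (nmbT T M c j l ν k) k

/-- The number of the positions `s < n` with `t ≤ s % c`. -/
def nZ (c t n : ℕ) : ℕ := (c - t) * (n / c) + (n % c - t)

end Pool.Agent.VU
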