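import Pool.Agent.VU.ST.Abs
import Pool.Agent.VU.F1
import Pool.Agent.VU.DHm
import Pool.Agent.VU.Wts
import Pool.Agent.VU.Num.Res
import Pool.Agent.VU.Num.Ms
import Pool.Agent.V7.ST.Step

/-!
# VU: exactness on the level `j` from exactness on the level `j + 1`
-/

set_option autoImplicit false
set_option linter.unusedSectionVars false

namespace Pool.Agent.VU

open Finset Pool.Agent.H51.TB Pool.Agent.V7 Pool.Agent.V7.ST

theorem del_pos {c j : ℕ} {u : ℕ → ℕ} (hu : ∀ s, 1 ≤ u s) : ∀ s, 1 ≤ del c j u s := by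
  intro s
  unfold del
  split_ifs
  · exact hu _
  · exact hu _

/-- G4 (Pool/Agent/VU/Step.lean) -/
theorem stepU (M c t j : ℕ) (hj : j + 2 ≤ M) (ht : t < c) (hc : 2 * (2 * M - 1).choose M * M < c)
    (hO : OJU M c t j) (hP : PROPU M c t (j + 1)) : PROPU M c t j := by
  have hc1 : 1 ≤ c := by omega
  have hM : 1 ≤ M := by omega
  obtain ⟨A, hA, hW⟩ := isI_wU c hc1
  obtain ⟨e', he', n₂, hP⟩ := hP
  obtain ⟨eO, heO, n₃, hO⟩ := hO
  obtain ⟨e₀, he₀, hnum⟩ := num_msI M c j hj hc A hA e' he'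
  obtain ⟨n₄, hn₄⟩ := exists_nat_gt (2 / eO)
  set e : ℝ := min e₀ (eO / 2) with he
  have hepos : 0 < e := lt_min he₀ (by positivity)
  have hrad : ∀ n : ℕ, n₄ + 1 ≤ n → e + 1 / (n : ℝ) ≤ eO := by
    intro n hn
    have h1 : (2 / eO : ℝ) < n := by
      refine hn₄.trans ?_
      exact_mod_cast hn
    have h2 : (0 : ℝ) < n := lt_trans (by positivity) h1
    have h3 : 1 / (n : ℝ) ≤ eO / 2 := by
      rw [div_le_iff₀ h2]
      rw [div_lt_iff₀ heO] at h1
      linarith
    have h4 : e ≤ eO / 2 := min_le_right _ _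
    linarith
  set n₀ : ℕ := n₂ + n₃ + n₄ + 1 + ((j + 2) * c + t + 2 * M + 1) with hn₀
  have hjc' : (j + 1) * c = j * c + c := by ring
  have hjc'' : (j + 2) * c = j * c + c + c := by ring
  have hjc0 : 0 ≤ j * c := Nat.zero_le _
  have htop : ∀ (u : ℕ → ℕ) (n : ℕ), wtI M (wU c t u n) (Kd.ord M (range j)) =
      wU c t u n (M - 1) (range j) := fun u n => rfl
  have hI : ∀ (u : ℕ → ℕ), (∀ s, 1 ≤ u s) → ∀ n, n₀ ≤ n + c → IsI A c j n (wU c t u n) :=
    fun u hu n hn => hW t u hu n j (by omega) (by omega)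
  have hR : ∀ (u : ℕ → ℕ) (n : ℕ), n₀ ≤ n → Rem j (wU c t u n) (wU c t (del c j u) (n - c)) :=
    fun u n hn => rem_wU c t j n u hc1 (by omega)
  obtain ⟨n₅, h⟩ := step_absU (K := Kd) (Ω := {u : ℕ → ℕ // ∀ s, 1 ≤ u s}) c hc1
    (fun u => ⟨del c j u.1, del_pos u.2⟩)
    (fun u n s => gM (LSU c t u.1 M n j) s)
    (fun u n s => gM (LSU c t u.1 M n (j + 1)) s) (fun u n s => vdI M (wU c t u.1 n) j s)
    (fun u n s => vdI M (wU c t u.1 n) (j + 1) s) (fun u n => wU c t u.1 n (M - 1) (range j))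
    (fun n s => Cls0 M c j n (e + 1 / (n : ℝ)) fun τ => s.count τ)
    (fun n s => Cls M c (j + 1) n e' fun τ => s.count τ) Kd.sm (Kd.ord M ∅) (Kd.sw j ∅)
    (Kd.ord M (range j)) (Kd.add j) n₀
    (fun u n hn => (hI u.1 u.2 n (by omega)).pos (M - 1) (range j) subset_rfl
      (by rw [card_range]; omega) (by omega))
    (fun u n hn => by
      have h1 := hR u.1 n hn (M - 1) (range j) subset_rfl
      show wU c t (del c j u.1) (n - c) (M - 1) (range j) ≤ wU c t u.1 n (M - 1) (range j)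
      omega)
    (fun n => ⟨(Ex (blk c n) (2 * M - 1) j).card, fun u s => by
      have h1 := gM_add_le (LSU c t u.1 M n j) s
      rw [Fintype.card_coe] at h1
      exact h1.trans (card_le_card (filter_subset _ _))⟩)
    (fun u n s hn hs => vdU_le_gMU c t u.1 hM ht (by omega) s hs.ok')
    (fun u n s a _ => gM_add_sm M (blk c n) (ExU c t u.1 n (2 * M - 1) j) s a)
    (fun u n s => gM_cons_le (LSU c t u.1 M n j) s _)
    (fun u n s hn => by
      have h1 := gM_le_cons (LSU c t u.1 M n j) s (Kd.ord M (range j))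
      have h2 := size_le_wtU c t u.1 (M := M) (n := n) (j := j) hM ht (by omega)
        (k := Kd.ord M (range j)) ⟨hM, le_rfl, subset_rfl⟩
      rw [htop] at h2
      exact h1.trans (Nat.add_le_add_left h2 _))
    (fun u n s => gM_submod (LSU c t u.1 M n j) s _ _)
    (fun u n s _ => by
      unfold vdI
      rw [Multiset.map_cons, Multiset.sum_cons, htop]
      push_cast
      ring)
    (fun n s => Cls0.cons_top (by omega))
    (fun u n s hn hs hns => hO n (by omega) u.1 u.2 s (hs.mono (hrad n (by omega))) hns)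
    (fun u n sL sO y a hn hs h0 => gM_dhU c t u.1 M j n hM hc1 (by omega) sL sO y a
      (fun k hk => hs.ok' k (Multiset.mem_add.2 (Or.inl (Multiset.mem_add.2 (Or.inl hk))))) h0)
    (fun u n s hn hs => hP n (by omega) u.1 u.2 s hs)
    (fun u n sL sO y hn hs => vd_resI M j hM (wU c t u.1 n) (wU c t (del c j u.1) (n - c))
      (hR u.1 n hn)
      ((hI u.1 u.2 n (by omega)).pos (M - 1) ∅ (empty_subset _) (Nat.zero_le _) (by omega))
      ((hI _ (del_pos u.2) (n - c) (by omega)).pos (M - 1) ∅ (empty_subset _) (Nat.zero_le _)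
        (by omega)) sL sO y
      (fun k hk => mem_kds.2
        (hs.ok' k (Multiset.mem_add.2 (Or.inl (Multiset.mem_add.2 (Or.inl hk))))))
      (fun k hk => mem_kds.2
        (hs.ok' k (Multiset.mem_add.2 (Or.inl (Multiset.mem_add.2 (Or.inr hk)))))))
    (fun X => by
      obtain ⟨n₁, h₁⟩ := hnum e hepos (min_le_left _ _) X
      refine ⟨n₁ + n₀ + c, fun n hn u s hs h1 h2 x hx => ?_⟩
      exact h₁ n (by omega) (wU c t u.1 n) (wU c t (del c j u.1) (n - c))
        (hW t u.1 u.2 n (j + 1) (by omega) (by omega))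
        (hI _ (del_pos u.2) (n - c) (by omega)) (hR u.1 n (by omega)) s hs h1 h2 x hx)
  refine ⟨e, hepos, n₅, fun n hn u hu s hs => h n hn ⟨u, hu⟩ s (hs.toCls0.mono ?_)⟩
  have h1 : (0 : ℝ) ≤ 1 / (n : ℝ) := by positivity
  linarith

end Pool.Agent.VU
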